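import Pool.Agent.H60.AFa

/-! `Δ · Φ` always extends to all forms: the exponent `p(n,d)` is always `1`. -/

open MvPolynomial Matrix H60.AF

set_option linter.unusedSectionVars false

namespace Pool.Agent.Results.MP_2a8a61_ag.No

/-- Exponent vectors of the monomials of degree `d` in `n` variables. -/
abbrev Mon (n d : ℕ) : Type := ↥((Finset.univ : Finset (Fin n)).finsuppAntidiag d)

/-- The form of degree `d` with coefficient vector `a`. -/
noncomputable def form {n d : ℕ} {S : Type} [CommRing S] (a : Mon n d → S) :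
    MvPolynomial (Fin n) S :=
  ∑ m : Mon n d, monomial m.1 (a m)

/-- Nondegenerate: the partial derivatives have no common zero besides the origin. -/
def Nondeg {n : ℕ} (f : MvPolynomial (Fin n) ℂ) : Prop :=
  ∀ z : Fin n → ℂ, (∀ j, eval z (pderiv j f) = 0) → z = 0

/-- The Hessian determinant. -/
noncomputable def hess {n : ℕ} (f : MvPolynomial (Fin n) ℂ) : MvPolynomial (Fin n) ℂ :=
  (Matrix.of fun i j => pderiv j (pderiv i f)).det

/-- `c` is the value of the associated form of `f` at `e`: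
`(e₁ z₁ + ⋯ + eₙ zₙ)^(n(d-2)) ≡ c · Hess f` in the Milnor algebra `ℂ[[z]]/(f_{z₁},…,f_{zₙ})`. -/
def IsAssocValue {n : ℕ} (d : ℕ) (f : MvPolynomial (Fin n) ℂ) (e : Fin n → ℂ) (c : ℂ) : Prop :=
  (((∑ i, C (e i) * X i) ^ (n * (d - 2)) - C c * hess f : MvPolynomial (Fin n) ℂ) :
      MvPowerSeries (Fin n) ℂ) ∈
    Ideal.span (Set.range fun j : Fin n =>
      ((pderiv j f : MvPolynomial (Fin n) ℂ) : MvPowerSeries (Fin n) ℂ))

variable {n d : ℕ}

lemma mem_mon (m : Fin n →₀ ℕ) :
    m ∈ (Finset.univ : Finset (Fin n)).finsuppAntidiag d ↔ m.degree = d := by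
  rw [Finset.mem_finsuppAntidiag, Finsupp.degree_eq_sum]; simp

lemma form_homog {S : Type} [CommRing S] (a : Mon n d → S) : (form a).IsHomogeneous d :=
  IsHomogeneous.sum _ _ _ fun m _ => isHomogeneous_monomial _ ((mem_mon _).1 m.2)

lemma map_form {S S' : Type} [CommRing S] [CommRing S'] (ρ : S →+* S') (a : Mon n d → S) :
    map ρ (form a) = form (fun m => ρ (a m)) := by
  simp [form, map_monomial]

lemma coeff_form {S : Type} [CommRing S] (a : Mon n d → S) (m : Mon n d) :
    coeff m.1 (form a) = a m := by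
  rw [form, coeff_sum, Finset.sum_eq_single m]
  · simp
  · intro b _ hb
    rw [coeff_monomial, if_neg]; exact fun h => hb (Subtype.ext h)
  · simp

lemma form_coeff {S : Type} [CommRing S] (f : MvPolynomial (Fin n) S) (hf : f.IsHomogeneous d) :
    form (fun m : Mon n d => coeff m.1 f) = f := by
  ext m
  by_cases hm : m.degree = d
  · exact coeff_form (fun m : Mon n d => coeff m.1 f) ⟨m, (mem_mon m).2 hm⟩
  · rw [hf.coeff_eq_zero hm, (form_homog _).coeff_eq_zero hm]

/-- coefficient ring -/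
abbrev A (n d : ℕ) : Type := MvPolynomial (Mon n d) ℂ

/-- universal form -/
noncomputable def fU (n d : ℕ) : MvPolynomial (Fin n) (A n d) := form (fun m => X m)

/-- universal partials -/
noncomputable def FU (n d : ℕ) (j : Fin n) : MvPolynomial (Fin n) (A n d) := pderiv j (fU n d)

lemma FU_homog (j : Fin n) : (FU n d j).IsHomogeneous (d - 1) := (form_homog _).pderiv

lemma map_FU {S : Type} [CommRing S] (ρ : A n d →+* S) (j : Fin n) :
    map ρ (FU n d j) = pderiv j (form fun m => ρ (X m)) := by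
  rw [FU, fU, ← pderiv_map, map_form]

lemma map_eval_FU (a : Mon n d → ℂ) (j : Fin n) :
    map (eval a) (FU n d j) = pderiv j (form a) := by
  rw [map_FU]; simp

/-- the base point with `i`-th coordinate one -/
noncomputable def pt (n d : ℕ) (i : Fin n) : Fin n → MvPolynomial (Fin n) (A n d) :=
  Function.update X i 1

/-- value of the universal partials at the base point -/
noncomputable def Fp (n d : ℕ) (i j : Fin n) : MvPolynomial (Fin n) (A n d) :=
  eval (pt n d i) (map C (FU n d j))

/-- correction forms -/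
noncomputable def G (n d : ℕ) (i j : Fin n) :
    MvPolynomial (Fin n) (MvPolynomial (Fin n) (A n d)) :=
  X i ^ (d - 1) * X j - C (C (C (((d : ℂ) - 1) / d)) * pt n d i j) * X i ^ d

/-- projection onto forms singular at the base point -/
noncomputable def proj (n d : ℕ) (i : Fin n) :
    MvPolynomial (Fin n) (MvPolynomial (Fin n) (A n d)) :=
  map C (fU n d) - ∑ j, C (Fp n d i j) * G n d i j

lemma G_homog (hd : 1 ≤ d) (i j : Fin n) : (G n d i j).IsHomogeneous d := by
  refine IsHomogeneous.sub ?_ (isHomogeneous_C_mul_X_pow _ _ _)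
  have := (isHomogeneous_X_pow (R := MvPolynomial (Fin n) (A n d)) i (d - 1)).mul
    (isHomogeneous_X _ j)
  rwa [Nat.sub_add_cancel hd] at this

lemma proj_homog (hd : 1 ≤ d) (i : Fin n) : (proj n d i).IsHomogeneous d :=
  ((form_homog _).map _).sub (IsHomogeneous.sum _ _ _ fun j _ => (G_homog hd i j).C_mul _)

lemma G_deriv (hd : 2 ≤ d) (i j k : Fin n) :
    eval (pt n d i) (pderiv k (G n d i j)) = if k = j then 1 else 0 := by
  have hi : pt n d i i = 1 := by simp [pt]
  have hd0 : (d : ℂ) ≠ 0 := by exact_mod_cast (by omega : d ≠ 0)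
  have hc : (C (C (((d : ℂ) - 1) / d)) : MvPolynomial (Fin n) (A n d)) * d
      = ((d - 1 : ℕ) : MvPolynomial (Fin n) (A n d)) := by
    rw [← map_natCast (C : A n d →+* _) d, ← map_natCast (C : ℂ →+* A n d) d, ← map_mul,
      ← map_mul, div_mul_cancel₀ _ hd0, ← map_natCast (C : A n d →+* _) (d - 1),
      ← map_natCast (C : ℂ →+* A n d) (d - 1), Nat.cast_sub (by omega)]
    simp
  simp only [G, map_sub, Derivation.leibniz, pderiv_C, Derivation.leibniz_pow, smul_eq_mul,
    pderiv_X, map_add, map_mul, map_pow, eval_X, eval_C, hi, nsmul_eq_mul, map_natCast,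
    mul_zero, add_zero, one_pow, one_mul]
  by_cases hk : k = i
  · subst hk
    simp only [Pi.single_eq_same, map_one, mul_one]
    by_cases hj : k = j
    · subst hj; simp only [Pi.single_eq_same, map_one, if_true, hi]
      linear_combination -hc
    · rw [Pi.single_eq_of_ne (Ne.symm hj), if_neg hj, map_zero]
      linear_combination -(pt n d k j) * hc
  · rw [Pi.single_eq_of_ne (Ne.symm hk)]
    by_cases hj : k = j
    · subst hj; simp
    · rw [Pi.single_eq_of_ne (Ne.symm hj), if_neg hj]; simp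

lemma proj_sing (hd : 2 ≤ d) (i k : Fin n) : eval (pt n d i) (pderiv k (proj n d i)) = 0 := by
  simp only [proj, map_sub, map_sum, pderiv_C_mul, map_mul, eval_C, G_deriv hd]
  rw [pderiv_map]
  simp [Fp, FU]

/-- the parametrisation of forms singular at a point with nonzero `i`-th coordinate -/
noncomputable def theta (n d : ℕ) (i : Fin n) : A n d →ₐ[ℂ] MvPolynomial (Fin n) (A n d) :=
  aeval fun m => coeff m.1 (proj n d i)

lemma theta_sub (i : Fin n) (h : A n d) :
    C h - theta n d i h ∈ Ideal.span (Set.range (Fp n d i)) := by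
  induction h using MvPolynomial.induction_on with
  | C a => simp [theta]
  | add p q hp hq =>
    have : C (p + q) - theta n d i (p + q) = (C p - theta n d i p) + (C q - theta n d i q) := by
      simp only [map_add]; ring
    rw [this]; exact Ideal.add_mem _ hp hq
  | mul_X p m hp =>
    have h1 : C (X m) - theta n d i (X m) ∈ Ideal.span (Set.range (Fp n d i)) := by
      simp only [theta, aeval_X, proj, coeff_sub, coeff_map, fU, coeff_form, coeff_sum,
        coeff_C_mul, sub_sub_cancel]
      exact Ideal.sum_mem _ fun j _ => Ideal.mul_mem_right _ _ (Ideal.subset_span ⟨j, rfl⟩)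
    have : C (p * X m) - theta n d i (p * X m)
        = (C p - theta n d i p) * C (X m) + theta n d i p * (C (X m) - theta n d i (X m)) := by
      simp only [map_mul]; ring
    rw [this]
    exact Ideal.add_mem _ (Ideal.mul_mem_right _ _ hp) (Ideal.mul_mem_left _ _ h1)

lemma eval_scale {R S : Type} [CommRing R] [CommRing S] (ρ : R →+* S) (k : ℕ)
    (φ : MvPolynomial (Fin n) R) (hφ : φ.IsHomogeneous k) (c : S) (x : Fin n → S) :
    eval₂ ρ (fun j => c * x j) φ = c ^ k * eval₂ ρ x φ := by
  rw [eval₂_eq', eval₂_eq', Finset.mul_sum]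
  refine Finset.sum_congr rfl fun m hm => ?_
  have hk : m.degree = k := by
    by_contra h
    exact (mem_support_iff.1 hm) (hφ.coeff_eq_zero h)
  simp only [mul_pow, Finset.prod_mul_distrib, Finset.prod_pow_eq_pow_sum]
  rw [← Finsupp.degree_eq_sum, hk]; ring

lemma ker_mem (i : Fin n) (h : A n d) (hh : theta n d i h = 0) :
    ∃ N : ℕ, C h * X i ^ N ∈ Ideal.span (Set.range (FU n d)) := by
  let B := MvPolynomial (Fin n) (A n d)
  let Loc := Localization.Away (X i : B)
  let w : Loc := IsLocalization.Away.invSelf (X i : B)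
  have hw : algebraMap B Loc (X i) * w = 1 := IsLocalization.Away.mul_invSelf _
  let ρ : B →+* Loc := eval₂Hom ((algebraMap B Loc).comp C) fun j => w * algebraMap B Loc (X j)
  have hρC : ∀ a, ρ (C a) = algebraMap B Loc (C a) := fun a => eval₂Hom_C _ _ _
  have hρX : ∀ r, ρ (X r) = w * algebraMap B Loc (X r) := fun a => eval₂Hom_X' _ _ _
  have h1 := theta_sub i h
  rw [hh, sub_zero] at h1
  have h2 : ∀ j, ρ (Fp n d i j) = w ^ (d - 1) * algebraMap B Loc (FU n d j) := by
    intro j
    have e1 : ∀ p : B, ρ (eval (pt n d i) (map C p))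
        = eval₂ ((algebraMap B Loc).comp C) (fun j => w * algebraMap B Loc (X j)) p := by
      intro p
      induction p using MvPolynomial.induction_on with
      | C a => simp [hρC]
      | add p q hp hq => simp only [map_add, eval₂_add, hp, hq]
      | mul_X p r hp =>
        simp only [map_mul, eval₂_mul, hp, map_X, eval_X, eval₂_X]
        congr 1
        by_cases hr : r = i
        · subst hr; simp only [pt, Function.update_self, map_one]; rw [mul_comm, hw]
        · simp [pt, hr, hρX]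
    have e2 : ∀ p : B, eval₂ ((algebraMap B Loc).comp C) (fun j => algebraMap B Loc (X j)) p
        = algebraMap B Loc p := by
      intro p
      induction p using MvPolynomial.induction_on with
      | C a => simp
      | add p q hp hq => simp only [map_add, eval₂_add, hp, hq]
      | mul_X p r hp => simp only [map_mul, eval₂_mul, hp, eval₂_X]
    rw [Fp, e1, eval_scale _ _ _ (FU_homog j), e2]
  have h3 : algebraMap B Loc (C h) ∈ (Ideal.span (Set.range (FU n d))).map (algebraMap B Loc) := by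
    obtain ⟨c, hc⟩ := Ideal.mem_span_range_iff_exists_fun.1 h1
    have : algebraMap B Loc (C h) = ρ (C h) := (hρC h).symm
    rw [this, ← hc, map_sum]
    refine Ideal.sum_mem _ fun j _ => ?_
    rw [map_mul, h2]
    exact Ideal.mul_mem_left _ _ (Ideal.mul_mem_left _ _
      (Ideal.mem_map_of_mem _ (Ideal.subset_span ⟨j, rfl⟩)))
  obtain ⟨_, ⟨N, rfl⟩, hN⟩ :=
    (IsLocalization.algebraMap_mem_map_algebraMap_iff (Submonoid.powers (X i : B)) Loc _ _).1 h3
  exact ⟨N, by rw [mul_comm]; exact hN⟩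

lemma ker_vanish (i : Fin n) (h : A n d) (hh : theta n d i h = 0) (a : Mon n d → ℂ)
    (z : Fin n → ℂ) (hz : z i ≠ 0) (hs : ∀ j, eval z (pderiv j (form a)) = 0) :
    eval a h = 0 := by
  obtain ⟨N, hN⟩ := ker_mem i h hh
  obtain ⟨c, hc⟩ := Ideal.mem_span_range_iff_exists_fun.1 hN
  have := congrArg (fun p => eval z (map (eval a) p)) hc
  simp only [map_sum, map_mul, map_eval_FU, hs, mul_zero, Finset.sum_const_zero, map_C, eval_C,
    map_pow, map_X, eval_X] at this
  exact (mul_eq_zero.1 this.symm).resolve_right (pow_ne_zero _ hz)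

lemma theta_disc (hd : 2 ≤ d) (Δ : A n d) (hΔ : ∀ a, eval a Δ ≠ 0 ↔ Nondeg (form a))
    (i : Fin n) : theta n d i Δ = 0 := by
  have key : ∀ (a : Mon n d → ℂ) (z : Fin n → ℂ),
      eval z (map (eval a) (theta n d i Δ)) = 0 := by
    intro a z
    let ρ : MvPolynomial (Fin n) (A n d) →+* ℂ := (eval z).comp (map (eval a))
    have e1 : ∀ h : A n d, ρ (theta n d i h) = eval (fun m => ρ (coeff m.1 (proj n d i))) h := by
      intro h
      induction h using MvPolynomial.induction_on with
      | C c => simp [ρ, theta]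
      | add p q hp hq => simp only [map_add, hp, hq]
      | mul_X p r hp => simp only [map_mul, hp, eval_X]; simp [theta]
    show ρ _ = 0
    rw [e1]
    by_contra hne
    have hN := (hΔ _).1 hne (fun j => ρ (pt n d i j)) (by
      intro k
      rw [← map_form ρ (fun m : Mon n d => coeff m.1 (proj n d i)),
        form_coeff _ (proj_homog (by omega) i), pderiv_map, eval_map]
      have := congrArg ρ (proj_sing hd i k)
      change ρ (eval₂ (RingHom.id _) _ _) = _ at this
      rw [map_zero, eval₂_comp_left] at this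
      simpa [Function.comp_def] using this)
    have := congrFun hN i
    simp [pt] at this
  ext m : 1
  refine MvPolynomial.funext fun a => ?_
  have : map (eval a) (theta n d i Δ) = 0 := MvPolynomial.funext fun z => by simpa using key a z
  have h2 := congrArg (coeff m) this
  simpa [coeff_map] using h2

lemma prime_theta (hd : 2 ≤ d) (Δ : A n d) (hΔ : ∀ a, eval a Δ ≠ 0 ↔ Nondeg (form a))
    (h0 : Δ ≠ 0) (q : A n d) (hq : Prime q) (hqΔ : q ∣ Δ) : ∃ i, theta n d i q = 0 := by
  by_cases H : ∃ i, ∀ h, theta n d i h = 0 → q ∣ h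
  · obtain ⟨i, hi⟩ := H
    have hp : (RingHom.ker (theta n d i).toRingHom).IsPrime := RingHom.ker_isPrime _
    obtain ⟨q', hq'1, hq'2⟩ := hp.exists_mem_prime_of_ne_bot (by
      intro hb
      have : Δ ∈ RingHom.ker (theta n d i).toRingHom := theta_disc hd Δ hΔ i
      rw [hb] at this
      exact h0 this)
    obtain ⟨u, hu⟩ := (hq.dvd_prime_iff_associated hq'2).1 (hi q' hq'1)
    refine ⟨i, ?_⟩
    have h1 : theta n d i q' = 0 := hq'1
    rw [← hu, map_mul] at h1
    exact (mul_eq_zero.1 h1).resolve_right (u.isUnit.map (theta n d i)).ne_zero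
  · exfalso
    push Not at H
    choose h hh using H
    have : ∏ i, h i ∈ vanishingIdeal ℂ (zeroLocus ℂ (Ideal.span {Δ})) := by
      intro a ha
      have h1 : eval a Δ = 0 := ha Δ (Ideal.subset_span rfl)
      have h2 : ¬ Nondeg (form a) := fun hN => (hΔ a).2 hN h1
      simp only [Nondeg, not_forall] at h2
      obtain ⟨z, hz, hz0⟩ := h2
      obtain ⟨i, hi⟩ := Function.ne_iff.1 hz0
      have := ker_vanish i (h i) (hh i).1 a z hi hz
      show eval a (∏ i, h i) = 0
      rw [map_prod]
      exact Finset.prod_eq_zero (Finset.mem_univ i) this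
    rw [vanishingIdeal_zeroLocus_eq_radical] at this
    obtain ⟨k, hk⟩ := this
    obtain ⟨i, _, hi⟩ := hq.exists_mem_finset_dvd
      (hq.dvd_of_dvd_pow (hqΔ.trans (Ideal.mem_span_singleton.1 hk)))
    exact (hh i).2 hi

/-- the cone singular at the `i`-th coordinate point -/
noncomputable def cone (n d : ℕ) (i : Fin n) : Mon n d → ℂ :=
  fun m => coeff m.1 (∑ j ∈ Finset.univ.erase i, (X j : MvPolynomial (Fin n) ℂ) ^ d)

lemma cone_deriv (i k : Fin n) :
    pderiv k (form (cone n d i)) = if k = i then 0 else C (d : ℂ) * X k ^ (d - 1) := by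
  unfold cone
  rw [form_coeff _ (IsHomogeneous.sum _ _ _ fun j _ => isHomogeneous_X_pow _ _), map_sum]
  simp only [Derivation.leibniz_pow, pderiv_X, smul_eq_mul, nsmul_eq_mul]
  split_ifs with hk
  · refine Finset.sum_eq_zero fun j hj => ?_
    rw [Pi.single_eq_of_ne (by rw [hk]; exact (Finset.mem_erase.1 hj).1)]; simp
  · rw [Finset.sum_eq_single k]
    · simp
    · intro j _ hj; rw [Pi.single_eq_of_ne hj]; simp
    · intro h; exact absurd (by simpa using hk) h

lemma mem_ker_smul {R S : Type} [CommRing R] [CommRing S] (ρ : R →+* S) (D : ℕ)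
    (y : MvPolynomial (Fin n) R) (hy : y.IsHomogeneous D) (h : map ρ y = 0) :
    y ∈ RingHom.ker ρ • homogeneousSubmodule (Fin n) R D := by
  rw [y.as_sum]
  refine Submodule.sum_mem _ fun m hm => ?_
  have : monomial m (coeff m y) = coeff m y • monomial m (1 : R) := by simp [smul_monomial]
  rw [this]
  refine Submodule.smul_mem_smul ?_ ?_
  · have := congrArg (coeff m) h
    simpa [coeff_map] using this
  · refine isHomogeneous_monomial _ ?_
    by_contra hk
    exact (mem_support_iff.1 hm) (hy.coeff_eq_zero hk)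

lemma exists_h (hd : 2 ≤ d) (i : Fin n) (K : ℕ) :
    ∃ (h : A n d) (D : ℕ), eval (cone n d i) h = 1 ∧
      ∀ r, C h * X r ^ D ∈ Ideal.span (Set.range (Function.update (FU n d) i (X i ^ K))) := by
  let I := Ideal.span (Set.range (Function.update (FU n d) i (X i ^ K)))
  let D := n * (K + d) + 1
  let P := homogeneousSubmodule (Fin n) (A n d) D
  have hd0 : (d : ℂ) ≠ 0 := by exact_mod_cast (by omega : d ≠ 0)
  have key : P ≤ I.restrictScalars (A n d) ⊔ RingHom.ker (eval (cone n d i)) • P := by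
    intro p hp
    rw [p.as_sum]
    refine Submodule.sum_mem _ fun m hm => ?_
    have hm' : m.degree = D := by
      by_contra hk
      exact (mem_support_iff.1 hm) (IsHomogeneous.coeff_eq_zero hp hk)
    have : monomial m (coeff m p) = coeff m p • monomial m (1 : A n d) := by simp [smul_monomial]
    rw [this]
    refine Submodule.smul_mem _ _ ?_
    obtain ⟨r, hr⟩ : ∃ r, K + d < m r := by
      by_contra hc
      push Not at hc
      have : m.degree ≤ n * (K + d) := by
        rw [Finsupp.degree_eq_sum]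
        simpa using Finset.sum_le_card_nsmul Finset.univ m (K + d) fun r _ => hc r
      omega
    by_cases hri : r = i
    · refine Submodule.mem_sup_left ?_
      have : monomial m (1 : A n d) = monomial (m - Finsupp.single i K) 1 * X i ^ K := by
        rw [X_pow_eq_monomial, monomial_mul, tsub_add_cancel_of_le, one_mul]
        rw [Finsupp.single_le_iff, ← hri]; omega
      rw [this]
      exact Ideal.mul_mem_left _ _ (Ideal.subset_span ⟨i, by simp⟩)
    · have hle : Finsupp.single r (d - 1) ≤ m := by rw [Finsupp.single_le_iff]; omega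
      let ν : MvPolynomial (Fin n) (A n d) := monomial (m - Finsupp.single r (d - 1)) (C (d : ℂ)⁻¹)
      have : monomial m (1 : A n d) = ν * FU n d r + (monomial m 1 - ν * FU n d r) := by ring
      rw [this]
      refine Submodule.add_mem_sup ?_ (mem_ker_smul _ D _ ?_ ?_)
      · exact Ideal.mul_mem_left _ _ (Ideal.subset_span ⟨r, by simp [hri]⟩)
      · refine (isHomogeneous_monomial _ hm').sub ?_
        have h1 : (m - Finsupp.single r (d - 1)).degree + (d - 1) = D := by
          rw [← hm']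
          conv_rhs => rw [← tsub_add_cancel_of_le hle, map_add, Finsupp.degree_single]
        rw [← h1]
        exact (isHomogeneous_monomial _ rfl).mul (FU_homog r)
      · rw [map_sub, map_mul, map_eval_FU, cone_deriv, if_neg hri, map_monomial, map_monomial,
          X_pow_eq_monomial, C_mul_monomial, monomial_mul, tsub_add_cancel_of_le hle]
        simp [hd0]
  obtain ⟨h, h1, h2⟩ := Submodule.exists_sub_one_mem_and_smul_le_of_fg_of_le_sup
    (homogeneousSubmodule_fg _ _ D) le_rfl key
  refine ⟨h, D, ?_, fun r => ?_⟩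
  · have : eval (cone n d i) (h - 1) = 0 := h1
    rw [map_sub, map_one, sub_eq_zero] at this
    exact this
  · have := h2 (Submodule.smul_mem_pointwise_smul (X r ^ D) h P (isHomogeneous_X_pow r D))
    rw [← smul_eq_C_mul]
    exact this

lemma exists_matrix {R : Type} [CommRing R] (v w : Fin n → R)
    (h : ∀ r, w r ∈ Ideal.span (Set.range v)) : ∃ E : Matrix (Fin n) (Fin n) R, E *ᵥ v = w := by
  choose c hc using fun r => Ideal.mem_span_range_iff_exists_fun.1 (h r)
  exact ⟨Matrix.of c, funext fun r => by simpa [mulVec, dotProduct] using hc r⟩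

lemma mem_mono {R : Type} [CommRing R] (I : Ideal R) (c x : R) {a b : ℕ} (hab : a ≤ b)
    (h : c * x ^ a ∈ I) : c * x ^ b ∈ I := by
  rw [← Nat.add_sub_cancel' hab, pow_add, ← mul_assoc]
  exact Ideal.mul_mem_right _ _ h

lemma step_dvd {R : Type} [CommRing R] [IsDomain R] (L : ℕ) (Δ h : R) (hne : Δ * h ≠ 0)
    (F : Fin n → MvPolynomial (Fin n) R) (i : Fin n) (y : MvPolynomial (Fin n) R)
    (hy : C Δ * y ∈ Ideal.span (Set.range F))
    (E E' : Matrix (Fin n) (Fin n) (MvPolynomial (Fin n) R))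
    (hE : E *ᵥ F = fun r => C Δ * X r ^ (L + 1))
    (hE' : E' *ᵥ Function.update F i y = fun r => C h * X r ^ (L + 1))
    (g : MvPolynomial (Fin n) R) :
    Δ ^ (n - 1) ∣ h ^ n * coeff (T (Fin n) L) (g * E.det) := by
  obtain ⟨c, hc⟩ := Ideal.mem_span_range_iff_exists_fun.1 hy
  let Ci : Matrix (Fin n) (Fin n) (MvPolynomial (Fin n) R) := (1 : Matrix _ _ _).updateRow i c
  let Dg : Matrix (Fin n) (Fin n) (MvPolynomial (Fin n) R) :=
    diagonal fun j => if j = i then 1 else C Δ
  have e1 : (Dg * Ci) *ᵥ F = (C Δ : MvPolynomial (Fin n) R) • Function.update F i y := by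
    rw [← mulVec_mulVec]
    funext r
    rw [mulVec_diagonal]
    show _ * (Ci r ⬝ᵥ F) = _
    by_cases hr : r = i
    · subst hr
      simp only [Ci, updateRow_self, if_true, one_mul, Pi.smul_apply, Function.update_self,
        smul_eq_mul]
      exact hc
    · have : (1 : Matrix (Fin n) (Fin n) (MvPolynomial (Fin n) R)) r ⬝ᵥ F = F r :=
        congrFun (one_mulVec F) r
      simp only [Ci, updateRow_ne hr, if_neg hr, Pi.smul_apply, Function.update_of_ne hr,
        smul_eq_mul, this]
  have e2 : (E' * (Dg * Ci)) *ᵥ F = fun r => C (Δ * h) * X r ^ (L + 1) := by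
    rw [← mulVec_mulVec, e1, mulVec_smul, hE']
    funext r; simp only [Pi.smul_apply, smul_eq_mul, map_mul]; ring
  have e3 : ((C h : MvPolynomial (Fin n) R) • E) *ᵥ F = fun r => C (Δ * h) * X r ^ (L + 1) := by
    rw [smul_mulVec, hE]
    funext r; simp only [Pi.smul_apply, smul_eq_mul, map_mul]; ring
  have e4 : Dg.det = C (Δ ^ (n - 1)) := by
    rw [det_diagonal, ← Finset.mul_prod_erase _ _ (Finset.mem_univ i), if_pos rfl, one_mul,
      Finset.prod_congr rfl fun j hj => if_neg (Finset.mem_erase.1 hj).1]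
    simp
  have e5 := mul_left_cancel₀ hne (wd L (Δ * h) _ _ _ e3 e2 g)
  rw [det_smul, det_mul, det_mul, e4, Fintype.card_fin, ← C_pow] at e5
  refine ⟨coeff (T (Fin n) L) (g * (E'.det * Ci.det)), ?_⟩
  rw [← coeff_C_mul, ← coeff_C_mul]
  convert e5 using 2 <;> ring

lemma main_dvd (hd : 2 ≤ d) (Δ : A n d) (hΔ : ∀ a, eval a Δ ≠ 0 ↔ Nondeg (form a))
    (h0 : Δ ≠ 0) : ∃ (L : ℕ) (E : Matrix (Fin n) (Fin n) (MvPolynomial (Fin n) (A n d))),
      d ≤ L ∧ (E *ᵥ FU n d = fun r => C Δ * X r ^ (L + 1)) ∧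
      ∀ g, Δ ^ (n - 1) ∣ coeff (T (Fin n) L) (g * E.det) := by
  choose N hN using fun i => ker_mem i Δ (theta_disc hd Δ hΔ i)
  choose h D hh hD using fun i => exists_h hd i (N i)
  let L := d + ∑ i, (N i + D i)
  have hL : ∀ i, N i + D i ≤ L := fun i =>
    (Finset.single_le_sum (f := fun i => N i + D i) (fun _ _ => Nat.zero_le _)
      (Finset.mem_univ i)).trans (Nat.le_add_left _ _)
  obtain ⟨E, hE⟩ := exists_matrix (FU n d) (fun r => C Δ * X r ^ (L + 1)) fun r =>
    mem_mono _ _ _ (by have := hL r; omega) (hN r)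
  refine ⟨L, E, Nat.le_add_right _ _, hE, fun g => ?_⟩
  set x := coeff (T (Fin n) L) (g * E.det) with hx
  have step : ∀ i, Δ ^ (n - 1) ∣ h i ^ n * x := by
    intro i
    obtain ⟨E', hE'⟩ := exists_matrix (Function.update (FU n d) i (X i ^ N i))
      (fun r => C (h i) * X r ^ (L + 1)) fun r =>
        mem_mono _ _ _ (by have := hL i; omega) (hD i r)
    refine step_dvd L Δ (h i) (mul_ne_zero h0 ?_) (FU n d) i _ (hN i) E E' hE hE' g
    intro h1; have := hh i; rw [h1] at this; simp at this
  obtain ⟨a', x', c', hrel, ha, hx'⟩ :=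
    UniqueFactorizationMonoid.exists_reduced_factors (Δ ^ (n - 1)) (pow_ne_zero _ h0) x
  have hc' : c' ≠ 0 := by
    rintro rfl
    rw [zero_mul] at ha
    exact pow_ne_zero _ h0 ha.symm
  have ha' : a' ≠ 0 := by
    rintro rfl
    rw [mul_zero] at ha
    exact pow_ne_zero _ h0 ha.symm
  have hu : IsUnit a' := by
    by_contra hnu
    obtain ⟨q, hq, hqa⟩ := WfDvdMonoid.exists_irreducible_factor hnu ha'
    have hq' : Prime q := hq.prime
    have hqΔ : q ∣ Δ := hq'.dvd_of_dvd_pow (hqa.trans ⟨c', by rw [← ha]; ring⟩)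
    obtain ⟨i, hi⟩ := prime_theta hd Δ hΔ h0 q hq' hqΔ
    have s1 := step i
    rw [← ha, ← hx', mul_left_comm, mul_dvd_mul_iff_left hc'] at s1
    obtain ⟨t, ht⟩ := hq'.dvd_of_dvd_pow (hqa.trans (hrel.dvd_of_dvd_mul_right s1))
    have s2 := ker_vanish i q hi (cone n d i) (Pi.single i 1) (by simp) (by
      intro j
      rw [cone_deriv]
      split_ifs with hj
      · simp
      · simp [Pi.single_eq_of_ne hj, show d - 1 ≠ 0 by omega])
    have := hh i
    rw [ht, map_mul, s2, zero_mul] at this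
    exact zero_ne_one this
  rw [← ha, ← hx']
  exact mul_dvd_mul_left _ (hu.dvd)

lemma hess_val (f : MvPolynomial (Fin n) ℂ) (hf : f.IsHomogeneous d) (hd : 2 ≤ d) (L : ℕ) (u : ℂ)
    (hu : u ≠ 0) (E : Matrix (Fin n) (Fin n) (MvPolynomial (Fin n) ℂ))
    (hE : E *ᵥ (fun j => pderiv j f) = fun r => C u * X r ^ (L + 1)) :
    coeff (T (Fin n) L) (hess f * E.det) = (((d - 1 : ℕ) : ℂ) * u) ^ n := by
  have e1 : (Matrix.of fun i j => pderiv j (pderiv i f)) *ᵥ (fun r => X r)
      = (C ((d - 1 : ℕ) : ℂ) : MvPolynomial (Fin n) ℂ) • fun j => pderiv j f := by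
    funext i
    have := (hf.pderiv (i := i)).sum_X_mul_pderiv
    simp only [mulVec, dotProduct, of_apply, Pi.smul_apply, smul_eq_mul, map_natCast]
    rw [← nsmul_eq_mul, ← this]
    exact Finset.sum_congr rfl fun j _ => mul_comm _ _
  have hne : ((d - 1 : ℕ) : ℂ) * u ≠ 0 :=
    mul_ne_zero (by exact_mod_cast (by omega : d - 1 ≠ 0)) hu
  have := wd_X L (((d - 1 : ℕ) : ℂ) * u) (E * Matrix.of fun i j => pderiv j (pderiv i f)) (by
    rw [← mulVec_mulVec, e1, mulVec_smul, hE]
    funext r; simp only [Pi.smul_apply, smul_eq_mul, map_mul]; ring)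
  have h2 := mul_left_cancel₀ hne this
  rw [det_mul, Fintype.card_fin, mul_comm] at h2
  exact h2

lemma exists_value (f : MvPolynomial (Fin n) ℂ) (hf : f.IsHomogeneous d) (hd : 2 ≤ d) (L : ℕ)
    (hL : d ≤ L) (u : ℂ) (hu : u ≠ 0) (E : Matrix (Fin n) (Fin n) (MvPolynomial (Fin n) ℂ))
    (hE : E *ᵥ (fun j => pderiv j f) = fun r => C u * X r ^ (L + 1)) (e : Fin n → ℂ) :
    ∃ c, IsAssocValue d f e c := by
  obtain ⟨E', hE', hhom⟩ := homog_matrix L (d - 1) (by omega) 1 (fun j => pderiv j f)
    (fun j => hf.pderiv) ((C u⁻¹ : MvPolynomial (Fin n) ℂ) • E) (by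
      rw [smul_mulVec, hE]
      funext r
      simp only [Pi.smul_apply, smul_eq_mul]
      rw [← mul_assoc, ← map_mul, inv_mul_cancel₀ hu])
  obtain ⟨β, hβ⟩ := bezout L _ E' hE'
  have hdet := det_homog _ E' hhom
  have hdeg : ∀ g : MvPolynomial (Fin n) ℂ, g.IsHomogeneous (n * (d - 2)) →
      (g * E'.det).IsHomogeneous (T (Fin n) L).degree := by
    intro g hg
    have := hg.mul hdet
    rw [T_degree]
    rw [Fintype.card_fin] at this ⊢
    rwa [← mul_add, show d - 2 + (L + 1 - (d - 1)) = L by omega] at this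
  have h1 := hβ ((∑ i, C (e i) * X i) ^ (n * (d - 2))) (hdeg _ (by
    simpa using (IsHomogeneous.sum Finset.univ (fun i => C (e i) * X i) 1
      fun i _ => isHomogeneous_C_mul_X _ _).pow (n * (d - 2))))
  have h2 := hβ (hess f) (hdeg _ (by
    have := det_homog (d - 1 - 1) (Matrix.of fun i j => pderiv j (pderiv i f))
      fun i j => hf.pderiv.pderiv
    rwa [Fintype.card_fin, show d - 1 - 1 = d - 2 by omega] at this))
  rw [hess_val f hf hd L 1 one_ne_zero E' hE'] at h2
  set l1 := coeff (T (Fin n) L) ((∑ i, C (e i) * X i) ^ (n * (d - 2)) * E'.det)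
  set l2 := (((d - 1 : ℕ) : ℂ) * 1) ^ n
  have hl2 : l2 ≠ 0 :=
    pow_ne_zero _ (mul_ne_zero (by exact_mod_cast (by omega : d - 1 ≠ 0)) one_ne_zero)
  refine ⟨l1 / l2, ?_⟩
  have h3 : (∑ i, C (e i) * X i) ^ (n * (d - 2)) - C (l1 / l2) * hess f
      ∈ Ideal.span (Set.range fun j => pderiv j f) := by
    have h4 : (C l1 : MvPolynomial (Fin n) ℂ) = C (l1 / l2) * C l2 := by
      rw [← map_mul, div_mul_cancel₀ _ hl2]
    have := Ideal.sub_mem _ h1 (Ideal.mul_mem_left _ (C (l1 / l2)) h2)
    convert this using 1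
    rw [h4]; ring
  obtain ⟨c, hc⟩ := Ideal.mem_span_range_iff_exists_fun.1 h3
  rw [IsAssocValue, ← hc, ← coeToMvPowerSeries.ringHom_apply, map_sum]
  refine Ideal.sum_mem _ fun j _ => ?_
  rw [map_mul]
  exact Ideal.mul_mem_left _ _ (Ideal.subset_span ⟨j, rfl⟩)

lemma kill (f : MvPolynomial (Fin n) ℂ) (L : ℕ) (u : ℂ)
    (E : Matrix (Fin n) (Fin n) (MvPolynomial (Fin n) ℂ))
    (hE : E *ᵥ (fun j => pderiv j f) = fun r => C u * X r ^ (L + 1)) (g : MvPolynomial (Fin n) ℂ)
    (hg : (g : MvPowerSeries (Fin n) ℂ) ∈ Ideal.span (Set.range fun j : Fin n =>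
      ((pderiv j f : MvPolynomial (Fin n) ℂ) : MvPowerSeries (Fin n) ℂ))) :
    coeff (T (Fin n) L) (g * E.det) = 0 := by
  obtain ⟨c, hc⟩ := Ideal.mem_span_range_iff_exists_fun.1 hg
  rw [← coeff_coe, coe_mul, ← hc, Finset.sum_mul, map_sum]
  refine Finset.sum_eq_zero fun j _ => ?_
  obtain ⟨y, hy⟩ := det_mul_mem L u _ E hE j
  rw [mul_assoc, ← coe_mul, mul_comm (pderiv j f), hy, ← coeToMvPowerSeries.ringHom_apply,
    map_sum, Finset.mul_sum, map_sum]
  refine Finset.sum_eq_zero fun r _ => ?_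
  refine (MvPowerSeries.X_pow_dvd_iff (s := r) (n := L + 1)).1 ?_ _ (by simp)
  rw [map_mul, map_pow, coeToMvPowerSeries.ringHom_apply, coeToMvPowerSeries.ringHom_apply,
    coe_X, ← mul_assoc]
  exact Dvd.intro_left _ rfl

theorem result (n d : ℕ) (hn : 2 ≤ n) (hd : 3 ≤ d) (Δ : MvPolynomial (Mon n d) ℂ)
    (hΔ : ∀ a : Mon n d → ℂ, eval a Δ ≠ 0 ↔ Nondeg (form a)) :
    ∃ Ψ : MvPolynomial (Fin n) (MvPolynomial (Mon n d) ℂ), Ψ.IsHomogeneous (n * (d - 2)) ∧
      ∀ a : Mon n d → ℂ, eval a Δ ≠ 0 → ∀ e : Fin n → ℂ,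
        (∃ c, IsAssocValue d (form a) e c) ∧
        ∀ c, IsAssocValue d (form a) e c → eval e (map (eval a) Ψ) = eval a Δ * c := by
  by_cases h0 : Δ = 0
  · exact ⟨0, isHomogeneous_zero _ _ _, fun a ha => absurd (by simp [h0]) ha⟩
  obtain ⟨L, E, hL, hE, hdvd⟩ := main_dvd (by omega) Δ hΔ h0
  choose Λ hΛ using hdvd
  let P : MvPolynomial (Fin n) (MvPolynomial (Fin n) (A n d)) :=
    (∑ i, C (X i) * X i) ^ (n * (d - 2))
  have hP : P.IsHomogeneous (n * (d - 2)) := by
    simpa using (IsHomogeneous.sum Finset.univ (fun i => (C (X i) * X i :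
      MvPolynomial (Fin n) (MvPolynomial (Fin n) (A n d)))) 1
      fun i _ => isHomogeneous_C_mul_X _ _).pow (n * (d - 2))
  let κ : ℂ := ((d - 1 : ℕ) : ℂ) ^ n
  have hκ : κ ≠ 0 := pow_ne_zero _ (by exact_mod_cast (by omega : d - 1 ≠ 0))
  refine ⟨C (C κ⁻¹) * ∑ α ∈ P.support, monomial α (Λ (coeff α P)), ?_, fun a ha e => ?_⟩
  · refine IsHomogeneous.C_mul (IsHomogeneous.sum _ _ _ fun α hα => ?_) _
    refine isHomogeneous_monomial _ ?_
    by_contra hk
    exact (mem_support_iff.1 hα) (hP.coeff_eq_zero hk)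
  let Ea := (map (eval a)).mapMatrix E
  have hEa : Ea *ᵥ (fun j => pderiv j (form a)) = fun r => C (eval a Δ) * X r ^ (L + 1) := by
    funext r
    have := congrArg (map (eval a)) (congrFun hE r)
    simpa [mulVec, dotProduct, Ea, map_eval_FU] using this
  refine ⟨exists_value _ (form_homog a) (by omega) L hL _ ha Ea hEa e, fun c hc => ?_⟩
  have k1 := kill _ L _ Ea hEa _ hc
  rw [sub_mul, coeff_sub, mul_assoc, coeff_C_mul,
    hess_val _ (form_homog a) (by omega) L _ ha Ea hEa, sub_eq_zero] at k1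
  have k2 : (∑ i, C (e i) * X i : MvPolynomial (Fin n) ℂ) ^ (n * (d - 2))
      = ∑ α ∈ P.support, C (∏ i, e i ^ α i) * map (eval a) (coeff α P) := by
    have : eval₂ (map (eval a)) (fun i => C (e i)) P
        = (∑ i, C (e i) * X i : MvPolynomial (Fin n) ℂ) ^ (n * (d - 2)) := by
      simp only [P, eval₂_pow, eval₂_sum, eval₂_mul, eval₂_C, eval₂_X, map_X]
      congr 1
      exact Finset.sum_congr rfl fun i _ => mul_comm _ _
    rw [← this, eval₂_eq']
    refine Finset.sum_congr rfl fun α _ => ?_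
    simp only [map_prod, map_pow]; ring
  have k3 : ∀ g, coeff (T (Fin n) L) (map (eval a) g * Ea.det)
      = eval a Δ ^ (n - 1) * eval a (Λ g) := by
    intro g
    rw [← RingHom.map_det, ← map_mul, coeff_map, hΛ, map_mul, map_pow]
  rw [k2, Finset.sum_mul, coeff_sum] at k1
  simp only [mul_assoc, coeff_C_mul, k3] at k1
  have k4 : eval e (map (eval a) (∑ α ∈ P.support, monomial α (Λ (coeff α P))))
      = ∑ α ∈ P.support, (∏ i, e i ^ α i) * eval a (Λ (coeff α P)) := by
    simp only [map_sum, map_monomial, eval_monomial]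
    refine Finset.sum_congr rfl fun α _ => ?_
    rw [Finsupp.prod_fintype _ _ (by simp), mul_comm]
  rw [map_mul, map_mul, k4, map_C, eval_C, eval_C]
  have k5 : eval a Δ ^ (n - 1) * ∑ α ∈ P.support, (∏ i, e i ^ α i) * eval a (Λ (coeff α P))
      = eval a Δ ^ (n - 1) * (κ * (eval a Δ * c)) := by
    rw [Finset.mul_sum]
    have : eval a Δ ^ n = eval a Δ ^ (n - 1) * eval a Δ := by
      rw [← pow_succ, Nat.sub_add_cancel (by omega)]
    rw [mul_pow, this] at k1
    calc _ = ∑ α ∈ P.support, (∏ i, e i ^ α i) * (eval a Δ ^ (n - 1) * eval a (Λ (coeff α P))) :=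
          Finset.sum_congr rfl fun α _ => by ring
      _ = _ := by rw [k1]; ring
  rw [mul_left_cancel₀ (pow_ne_zero _ ha) k5, ← mul_assoc, inv_mul_cancel₀ hκ, one_mul]

end Pool.Agent.Results.MP_2a8a61_ag.No
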